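import Pool.Agent.Helper82_NIB.Stmts
import Pool.Agent.Helper82_NIB.Basic

/-!
# Module AK: from (O4) for the arrays to (k1)-(k5)
-/

set_option autoImplicit false

namespace Pool.Agent.NIB.H87

open Pool.Agent.NIB Matrix

theorem ak (h1 : Aq1Stmt) (h2 : Aq2Stmt) (h3 : Aq3Stmt) : AkStmt := by
  intro V _ _ P x xo sg gh Z hx0 hxd hrow hde heps hth hlam hta hk4 hgh hO
  have hsub : IsSub (mat x) := isSub_mat hx0 hrow
  have hle : ∀ a b, mat x a b ≤ P.de := mat_le hde hxd
  have hlt : 0 ≤ P.lam * P.th := mul_nonneg hlam hth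
  refine ⟨?_, ?_, ?_, ?_, ?_⟩
  · intro w
    have h := hO (.inl w)
    have hq : Qf x (kpA x gh (.inl w)) ≤ P.de * (2 / P.ta + 16 * P.eps) := by
      show Qf x (grad (mat x *ᵥ mu (mat x) gh w)) ≤ _
      rw [Qf_grad]
      exact h1 (V × Bool) (mat x) gh P.de P.eps P.ta Z hsub hle hde heps hta hgh w
    have h' : 9 * √(P.lam * P.th * Qf x (kpA x gh (.inl w))) ≤
        9 * √(P.lam * P.th * (P.de * (2 / P.ta + 16 * P.eps))) :=
      mul_le_mul_of_nonneg_left (Real.sqrt_le_sqrt (mul_le_mul_of_nonneg_left hq hlt))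
        (by norm_num)
    have h'' : 8 * P.lam * MbA x gh P.de P.ta (.inl w) = 16 * P.lam * P.de * (P.ta + 1) := by
      show 8 * P.lam * (2 * P.de * (P.ta + 1)) = _
      ring
    rw [h''] at h
    exact h.trans (by unfold Prm.B1; linarith)
  · intro w
    have h := hO (.inr (.inl w))
    have hq : Qf x (kpA x gh (.inr (.inl w))) ≤ P.de * (P.ta + 4 * P.eps) := by
      show Qf x (grad (mat x *ᵥ gh w)) ≤ _
      rw [Qf_grad]
      exact h2 (V × Bool) (mat x) gh P.de P.eps P.ta Z hsub hle hde heps hta hgh w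
    have h' : 9 * √(P.lam * P.th * Qf x (kpA x gh (.inr (.inl w)))) ≤
        9 * √(P.lam * P.th * (P.de * (P.ta + 4 * P.eps))) :=
      mul_le_mul_of_nonneg_left (Real.sqrt_le_sqrt (mul_le_mul_of_nonneg_left hq hlt))
        (by norm_num)
    have h'' : 8 * P.lam * MbA x gh P.de P.ta (.inr (.inl w)) = 8 * P.lam * P.de * P.ta := by
      show 8 * P.lam * (P.de * P.ta) = _
      ring
    rw [h''] at h
    exact h.trans (by unfold Prm.Phi; linarith)
  · intro w w' hww
    have h := hO (.inr (.inr (.inl (w, w'))))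
    have e : kpA x gh (.inr (.inr (.inl (w, w')))) = grad (mat x *ᵥ (gh w - gh w')) := if_pos hww
    have hq : Qf x (grad (mat x *ᵥ (gh w - gh w'))) = Qd (mat x) gh w w' := Qf_grad x _
    rw [e, hq] at h
    have h'' : 8 * P.lam * MbA x gh P.de P.ta (.inr (.inr (.inl (w, w')))) =
        8 * (√P.lam * √P.lam) * P.de * P.ta := by
      rw [Real.mul_self_sqrt hlam]
      show 8 * P.lam * (P.de * P.ta) = _
      ring
    have hs : √(P.lam * P.th * Qd (mat x) gh w w') = √P.lam * √(P.th * Qd (mat x) gh w w') := by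
      rw [mul_assoc, Real.sqrt_mul hlam]
    rw [h'', hs] at h
    refine h.trans ?_
    unfold Prm.el Prm.kb
    have h0 : 0 ≤ √P.lam * √P.lam * P.de * P.ta := by positivity
    nlinarith
  · intro w
    have h := hO (.inr (.inr (.inr (.inl w))))
    obtain ⟨hq, -, hG⟩ := h3 V x gh P.de hx0 hxd hrow hde w
    have h' : 9 * √(P.lam * P.th * Qf x (kpA x gh (.inr (.inr (.inr (.inl w)))))) ≤
        9 * (√(P.lam * P.th * P.de) * √(Gamh (mat x) gh w)) := by
      rw [← Real.sqrt_mul (mul_nonneg hlt hde)]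
      refine mul_le_mul_of_nonneg_left (Real.sqrt_le_sqrt ?_) (by norm_num)
      calc P.lam * P.th * Qf x (kpA x gh (.inr (.inr (.inr (.inl w)))))
          ≤ P.lam * P.th * (P.de * Gamh (mat x) gh w) := mul_le_mul_of_nonneg_left hq hlt
        _ = P.lam * P.th * P.de * Gamh (mat x) gh w := by ring
    have h'' : 8 * P.lam * MbA x gh P.de P.ta (.inr (.inr (.inr (.inl w)))) =
        8 * P.lam * √P.de * √(Gamh (mat x) gh w) := by
      show 8 * P.lam * √(P.de * Gamh (mat x) gh w) = _
      rw [Real.sqrt_mul hde]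
      ring
    rw [h''] at h
    refine h.trans ?_
    have h4 := mul_le_mul_of_nonneg_right hk4 (Real.sqrt_nonneg (Gamh (mat x) gh w))
    nlinarith
  · intro w
    have h := hO (.inr (.inr (.inr (.inr w))))
    obtain ⟨-, hq, -⟩ := h3 V x gh P.de hx0 hxd hrow hde w
    have h' : 9 * √(P.lam * P.th * Qf x (kpA x gh (.inr (.inr (.inr (.inr w)))))) ≤
        9 * √(P.lam * P.th * P.de) :=
      mul_le_mul_of_nonneg_left (Real.sqrt_le_sqrt (mul_le_mul_of_nonneg_left hq hlt))
        (by norm_num)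
    have h'' : 8 * P.lam * MbA x gh P.de P.ta (.inr (.inr (.inr (.inr w)))) =
        8 * P.lam * P.de := rfl
    rw [h''] at h
    exact h.trans (by unfold Prm.B4; linarith)

end Pool.Agent.NIB.H87
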