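import Pool.Agent.Helper82_NIB.Stmts

/-!
# Module NLLL: the local lemma conditions
-/

set_option autoImplicit false

namespace Pool.Agent.NIB.H87

open Pool.Agent.NIB

theorem pow_le_exp {x : ℝ} (hx : 0 ≤ x) (A : ℕ) : x ^ A ≤ Real.exp (A * x) := by
  rw [Real.exp_nat_mul]
  exact pow_le_pow_left₀ hx (by linarith [Real.add_one_le_exp x]) A

theorem fin_of {x y L : ℝ} {A : ℕ} (hx : 0 ≤ x) (hy : y ≤ x ^ A) (hL : (A : ℝ) * x ≤ L) :
    y * Real.exp (-L) ≤ 1 := by
  calc y * Real.exp (-L) ≤ Real.exp (A * x) * Real.exp (-L) :=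
        mul_le_mul_of_nonneg_right (hy.trans (pow_le_exp hx A)) (Real.exp_pos _).le
    _ = Real.exp (A * x + -L) := (Real.exp_add _ _).symm
    _ ≤ 1 := by
        rw [Real.exp_le_one_iff]
        linarith

theorem nlll : NlllStmt := by
  refine ⟨10000, fun N hN kap hk => ⟨?_, ?_⟩⟩
  · have hx : (10000 : ℝ) ≤ (N : ℝ) := by exact_mod_cast hN
    have hkr : (kap : ℝ) ≤ 2 * (N : ℝ) ^ 480 := by exact_mod_cast hk
    unfold LLL1
    push_cast
    generalize hX : (N : ℝ) = x at hx hkr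
    have hx0 : 0 ≤ x := by linarith
    have hx1 : 1 ≤ x := by linarith
    have hp : ∀ n : ℕ, 1 ≤ x ^ n := fun n => one_le_pow₀ hx1
    have h1 : (kap : ℝ) + 1 ≤ x ^ 481 := by
      have h : x ^ 481 = x ^ 480 * x := pow_succ x 480
      have h' := hp 480
      rw [h]
      nlinarith
    have h2 : 16 * x ^ 330 * x ^ 80 ≤ x ^ 411 := by
      have h : x ^ 411 = x ^ 330 * x ^ 80 * x := by ring
      have h' : 0 ≤ x ^ 330 * x ^ 80 := by positivity
      rw [h]
      nlinarith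
    have h3 : ((kap : ℝ) + 1) ^ (2 * N ^ 80) ≤ x ^ (481 * (2 * N ^ 80)) := by
      rw [pow_mul x]
      exact pow_le_pow_left₀ (by positivity) h1 _
    have h4 : 16 * x ^ 330 * x ^ 80 * ((kap : ℝ) + 1) ^ (2 * N ^ 80) ≤
        x ^ (411 + 481 * (2 * N ^ 80)) := by
      rw [pow_add]
      exact mul_le_mul h2 h3 (by positivity) (by positivity)
    refine fin_of hx0 h4 ?_
    push_cast
    rw [hX]
    have h5 : x ^ 85 = x ^ 81 * x ^ 4 := by ring
    have h6 : (411 + 481 * (2 * x ^ 80)) * x = 411 * x + 962 * x ^ 81 := by ring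
    have h7 : x ≤ x ^ 81 := by
      calc x = x ^ 1 := (pow_one x).symm
        _ ≤ x ^ 81 := pow_le_pow_right₀ hx1 (by norm_num)
    have h8 : (10000 : ℝ) ≤ x ^ 4 := by
      calc (10000 : ℝ) ≤ x := hx
        _ = x ^ 1 := (pow_one x).symm
        _ ≤ x ^ 4 := pow_le_pow_right₀ hx1 (by norm_num)
    have h9 : 0 ≤ x ^ 81 := by positivity
    rw [h5, h6]
    nlinarith
  · have hx : (10000 : ℝ) ≤ (N : ℝ) := by exact_mod_cast hN
    have hkr : (kap : ℝ) ≤ 2 * (N : ℝ) ^ 480 := by exact_mod_cast hk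
    unfold LLL2 KK1 KK2
    push_cast
    have hk0 : (0 : ℝ) ≤ kap := Nat.cast_nonneg _
    generalize hX : (N : ℝ) = x at hx hkr
    generalize hK : (kap : ℝ) = k at hkr hk0
    have hx0 : 0 ≤ x := by linarith
    have hx1 : 1 ≤ x := by linarith
    have hp : ∀ n : ℕ, 1 ≤ x ^ n := fun n => one_le_pow₀ hx1
    have hpos : ∀ n : ℕ, 0 ≤ x ^ n := fun n => pow_nonneg hx0 n
    -- `c * x ^ n + 9 ≤ x ^ (n + 1)` for `c ≤ 99`
    have key : ∀ (n m : ℕ), m = n + 1 → ∀ (y : ℝ), y ≤ x ^ n → 99 * y + 99 ≤ x ^ m := by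
      intro n m hm y hy
      have h : x ^ (n + 1) = x ^ n * x := pow_succ x n
      have h' := hp n
      rw [hm, h]
      nlinarith
    have hk1 : k + 3 ≤ x ^ 482 := by
      have h := key 481 482 rfl (x ^ 480) (pow_le_pow_right₀ hx1 (by norm_num))
      linarith [hpos 480]
    have hA : x ^ 320 + 2 ≤ x ^ 321 := by
      have h := key 320 321 rfl (x ^ 320) le_rfl
      linarith [hpos 320]
    have hA2 : 64 * (x ^ 320 + 2) ^ 2 ≤ x ^ 643 := by
      have h : (x ^ 320 + 2) ^ 2 ≤ (x ^ 321) ^ 2 := pow_le_pow_left₀ (by positivity) hA 2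
      rw [← pow_mul, show 321 * 2 = 642 from rfl] at h
      have h' := key 642 643 rfl ((x ^ 320 + 2) ^ 2) h
      have h0 : 0 ≤ (x ^ 320 + 2) ^ 2 := by positivity
      linarith
    have hB : (k + 3) ^ 12 ≤ x ^ 5784 := by
      have h := pow_le_pow_left₀ (by positivity) hk1 12
      rw [← pow_mul] at h
      exact h
    have hC : k ^ 2 * ((k + 2) * (x ^ 330 * x ^ 80) + 2) + 2 ≤ x ^ 1858 := by
      have e1 : (k + 2) * (x ^ 330 * x ^ 80) ≤ x ^ 892 := by
        calc (k + 2) * (x ^ 330 * x ^ 80) ≤ x ^ 482 * (x ^ 330 * x ^ 80) :=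
              mul_le_mul_of_nonneg_right (by linarith) (by positivity)
          _ = x ^ 892 := by ring
      have e0 : 0 ≤ (k + 2) * (x ^ 330 * x ^ 80) := by positivity
      have e2 : (k + 2) * (x ^ 330 * x ^ 80) + 2 ≤ x ^ 893 := by
        have h := key 892 893 rfl _ e1
        linarith
      have e3 : k ^ 2 ≤ x ^ 964 := by
        have h := pow_le_pow_left₀ hk0 (show k ≤ x ^ 482 by linarith) 2
        rw [← pow_mul] at h
        exact h
      have e4 : k ^ 2 * ((k + 2) * (x ^ 330 * x ^ 80) + 2) ≤ x ^ 1857 := by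
        calc k ^ 2 * ((k + 2) * (x ^ 330 * x ^ 80) + 2) ≤ x ^ 964 * x ^ 893 :=
              mul_le_mul e3 e2 (by positivity) (by positivity)
          _ = x ^ 1857 := by ring
      have h := key 1857 1858 rfl _ e4
      have e5 : 0 ≤ k ^ 2 * ((k + 2) * (x ^ 330 * x ^ 80) + 2) := by positivity
      linarith
    have hC2 : k ^ 2 * ((k + 2) * (x ^ 330 * x ^ 80) + 2) + 2 ≤ x ^ 1858 := hC
    have hD : 2 * k * (6 * (x ^ 330 * x ^ 80) * (k + 1) + 3) + 2 ≤ x ^ 1378 := by
      have e1 : (x ^ 330 * x ^ 80) * (k + 1) ≤ x ^ 892 := by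
        calc (x ^ 330 * x ^ 80) * (k + 1) ≤ (x ^ 330 * x ^ 80) * x ^ 482 :=
              mul_le_mul_of_nonneg_left (by linarith) (by positivity)
          _ = x ^ 892 := by ring
      have e0 : 0 ≤ (x ^ 330 * x ^ 80) * (k + 1) := by positivity
      have e2 : 6 * (x ^ 330 * x ^ 80) * (k + 1) + 3 ≤ x ^ 893 := by
        have h := key 892 893 rfl _ e1
        have h' : 6 * (x ^ 330 * x ^ 80) * (k + 1) = 6 * ((x ^ 330 * x ^ 80) * (k + 1)) := by ring
        rw [h']
        linarith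
      have e4 : k * (6 * (x ^ 330 * x ^ 80) * (k + 1) + 3) ≤ x ^ 1375 := by
        calc k * (6 * (x ^ 330 * x ^ 80) * (k + 1) + 3) ≤ x ^ 482 * x ^ 893 :=
              mul_le_mul (by linarith) e2 (by positivity) (by positivity)
          _ = x ^ 1375 := by ring
      have h := key 1375 1376 rfl _ e4
      have e5 : 0 ≤ k * (6 * (x ^ 330 * x ^ 80) * (k + 1) + 3) := by positivity
      have h' : x ^ 1376 ≤ x ^ 1378 := pow_le_pow_right₀ hx1 (by norm_num)
      have e6 : 2 * k * (6 * (x ^ 330 * x ^ 80) * (k + 1) + 3) =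
        2 * (k * (6 * (x ^ 330 * x ^ 80) * (k + 1) + 3)) := by ring
      rw [e6]
      linarith
    have hC' : k ^ 2 * ((k + 2) * (x ^ 330 * x ^ 80) + 2) + 2 ≤ x ^ 1858 := hC2
    have hT : 64 * (x ^ 320 + 2) ^ 2 * (k + 3) ^ 12 *
        (k ^ 2 * ((k + 2) * (x ^ 330 * x ^ 80) + 2) + 2) *
        (2 * k * (6 * (x ^ 330 * x ^ 80) * (k + 1) + 3) + 2) ≤ x ^ 9663 := by
      calc _ ≤ x ^ 643 * x ^ 5784 * x ^ 1858 * x ^ 1378 := by
            refine mul_le_mul (mul_le_mul (mul_le_mul hA2 hB (by positivity) (by positivity)) hC'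
              (by positivity) (by positivity)) hD (by positivity) (by positivity)
        _ = x ^ 9663 := by ring
    refine fin_of hx0 hT ?_
    have : ((9663 : ℕ) : ℝ) ≤ x := by
      push_cast
      linarith
    nlinarith

end Pool.Agent.NIB.H87
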